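import Pool.Agent.H8.DS.TarK

/-! LF: local finiteness of the relevant lifts (MP_81a758_an). -/

namespace DS

open Set Data

/-- LF -/
theorem pf_LF (h1 : T_LFF) (h2 : T_LFH) : T_LF := by
  intro C S _ X w hX hU hw t₀ ht
  have key : ∀ s, ∃ ε : ℝ, 0 < ε ∧ ∃ K : Finset (Lift S),
      (∀ k ∈ K, X.comp k.1 = X.comp (X.glue s) ∧ X.b (X.glue s) < X.hgt k) ∧
      ∀ t, |t - t₀| < ε → ∀ ξ ∈ Ioo (0 : ℝ) 1, ∀ k, X.Meets t s ξ k →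
        ∃ k' ∈ K, X.hgt k' ≤ X.hgt k ∧ X.Meets t s ξ k' := by
    intro s
    by_cases h : X.Hopf (X.comp (X.glue s))
    · obtain ⟨ε, a, b⟩ := h2 C S X w hX hU hw t₀ ht s h
      exact ⟨ε, a, b⟩
    · obtain ⟨ε, a, b⟩ := h1 C S X hX t₀ ht s h
      exact ⟨ε, a, b⟩
  choose e he K hK using key
  obtain ⟨ε, hε, hle⟩ : ∃ ε : ℝ, 0 < ε ∧ ∀ s, ε ≤ e s := by
    cases isEmpty_or_nonempty S
    · exact ⟨1, one_pos, fun s => isEmptyElim s⟩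
    · obtain ⟨s₀, hs₀⟩ := Finite.exists_min e
      exact ⟨e s₀, he s₀, hs₀⟩
  exact ⟨ε, hε, K, fun s => ⟨(hK s).1, fun t ht' => (hK s).2 t (lt_of_lt_of_le ht' (hle s))⟩⟩

end DS
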