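import Pool.Agent.H8.DS.TarG
import Pool.Agent.H8.DS.TarK

/-! NAE: almost every direction is nice (MP_81a758_an). MAIN. -/

namespace DS

open Set Data MeasureTheory

namespace H75NAE

theorem exc (h1 : T_EXC1) (h2 : T_EXC2) : T_EXC := by
  intro C S _ _ X hX
  refine ((h1 C S X hX).union (h2 C S X hX)).mono ?_
  intro t ht
  by_contra hn
  rw [mem_union, not_or] at hn
  obtain ⟨a, b⟩ := hn
  obtain ⟨a1, a2, a3⟩ := not_not.1 a
  refine ht ⟨a1, a2, a3, ?_⟩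
  intro s ξ n y hξ hB hH hA
  exact b ⟨s, ξ, n, y, hξ, hB, hH, hA⟩

end H75NAE

/-- EXC -/
theorem pf_EXC (h1 : T_EXC1) (h2 : T_EXC2) : T_EXC := H75NAE.exc h1 h2

/-- NAE -/
theorem pf_NAE (hM : T_MODEL) (hL : T_LOCAE) (h1 : T_EXC1) (h2 : T_EXC2) : T_NAE := by
  intro C S _ _ X w hX hU hw
  have hc : {t | ¬ X.Tgood t}.Countable := H75NAE.exc h1 h2 C S X hX
  have h0 : volume {t : ℝ | ¬ X.Tgood t} = 0 := hc.measure_zero _
  have hT : ∀ᵐ t : ℝ, X.Tgood t := ae_iff.2 h0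
  have hB : volume {t : ℝ | ¬ X.Nice t ∧ X.Tgood t} = 0 := by
    refine measure_null_of_locally_null _ fun t₀ ht₀ => ?_
    obtain ⟨B, Q, fB, fQ, M, hm⟩ := hM C S X w hX hU hw t₀ ht₀.2
    have h3 := hL C S B Q X w hX hw hT M
    refine ⟨{t : ℝ | ¬ X.Nice t ∧ X.Tgood t} ∩ Ioo M.lo M.hi,
      inter_mem_nhdsWithin _ (Ioo_mem_nhds hm.1 hm.2), ?_⟩
    refine measure_mono_null ?_ (ae_iff.1 h3)
    rintro t ⟨⟨ht1, -⟩, ht2⟩ hn
    exact ht1 (hn ht2)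
  refine ae_iff.2 (measure_mono_null ?_ (measure_union_null hB h0))
  intro t ht
  by_cases h : X.Tgood t
  · exact Or.inl ⟨ht, h⟩
  · exact Or.inr h

/-- MAIN -/
theorem pf_MAIN (hN : T_NAE) (h1 : T_EXC1) (h2 : T_EXC2) (hG : T_GEO) (hC : T_COT) :
    T_MAIN := by
  intro C S _ _ X hX hU hCo
  obtain ⟨w, w1, w2, w3, w4⟩ := hCo
  have hw : X.Wt w := ⟨w1, w2, w3, w4⟩
  have hc : {t | ¬ X.Tgood t}.Countable := H75NAE.exc h1 h2 C S X hX
  have hT : ∀ᵐ t : ℝ, X.Tgood t := ae_iff.2 (hc.measure_zero _)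
  have hms : ∀ᵐ t : ℝ, X.MorseSmale t := by
    filter_upwards [hT, hN C S X w hX hU hw] with t a b
    exact hG C S X w hX hU hw t a b
  exact ae_iff.2 (hC _ (ae_iff.1 hms))

end DS
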