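import Pool.Agent.H8.DS.TarG

/-! SC: two steps from one point are comparable (MP_81a758_an). -/

namespace DS

open Set Data

namespace H75SC

variable {C S : Type}

theorem step_up (hE : T_EQV) (X : Data C S) (hX : X.Surface) (t : ℝ) (c : C) (z : ℝ × ℝ)
    (h h' : ℝ) (g g' : ℝ × ℝ × ℝ) (hg : g ∈ X.deck c) (hg' : g' ∈ X.deck c) (h0 : 0 < h)
    (hlt : h < h') (cl : X.Clear t c z h') (va : X.Valid c (fwd t z h')) :
    ∃ k, X.Step t (c, act g (fwd t z h)) (c, act g' (fwd t z h')) k := by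
  have gp := deck_pos X hX c g hg
  have e0 : fwd t (fwd t z h) (h' - h) = fwd t z h' := by
    rw [fwd_add]; congr 1; ring
  have e1 : fwd t (act g (fwd t z h)) (g.1 * (h' - h)) = act g (fwd t z h') := by
    rw [← act_fwd, e0]
  refine ⟨_, c, act g (fwd t z h), 1, g.1 * (h' - h), gmul g' (ginv g), ?_, ?_, ?_, ?_, ?_, ?_,
    rfl⟩
  · exact Start.pure _ _ ((hE C S X hX c g hg (fwd t z h)).2.2.1.2 (cl h h0 hlt))
  · exact mul_pos gp (by linarith)
  · refine ((hE C S X hX c g hg (fwd t z h)).2.2.2.2 t (h' - h)).2 fun k hk0 hk => ?_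
    rw [fwd_add]
    exact cl _ (by linarith) (by linarith)
  · rw [e1]
    exact (hE C S X hX c g hg (fwd t z h')).2.2.2.1.2 va
  · exact deck_mul X hX c g' (ginv g) hg' (deck_inv X hX c g hg)
  · rw [e1, act_gmul, act_ginv g gp.ne']

end H75SC

open H75SC in
/-- SC -/
theorem pf_SC (hS : T_START) (hE : T_EQV) : T_SC := by
  intro C S X hX t M P Q m n hP hQ
  obtain ⟨c, z, r, h, g, st, h0, cl, va, hg, rfl, -⟩ := hP
  obtain ⟨c', z', r', h', g', st', h0', cl', va', hg', rfl, -⟩ := hQ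
  obtain ⟨rfl, rfl, -⟩ := hS C S X hX M _ _ _ _ _ _ st st'
  have gp := deck_pos X hX c g hg
  rcases lt_trichotomy h h' with hlt | heq | hlt
  · exact Or.inr (Or.inl (step_up hE X hX t c z h h' g g' hg hg' h0 hlt cl' va'))
  · subst heq
    refine Or.inl ⟨rfl, gmul g' (ginv g), deck_mul X hX c g' (ginv g) hg' (deck_inv X hX c g hg), ?_⟩
    show act g' (fwd t z h) = act (gmul g' (ginv g)) (act g (fwd t z h))
    rw [act_gmul, act_ginv g gp.ne']
  · exact Or.inr (Or.inr (step_up hE X hX t c z h' h g' g hg' hg h0' hlt cl va))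

end DS
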