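import Pool.Agent.H8.DS.TarG

/-! SCB: two steps to one point are comparable (MP_81a758_an). -/

namespace DS

open Set Data

namespace H75SCB

variable {C S : Type}

theorem start_view (X : Data C S) (P : C × ℝ × ℝ) (c : C) (z : ℝ × ℝ) (r : ℝ)
    (h : X.Start P c z r) : (P = (c, z) ∧ X.Pure c z) ∨
    ∃ (s : S) (g : ℝ × ℝ × ℝ) (ξ : ℝ), g ∈ X.deck (X.comp s) ∧ 0 < ξ ∧ ξ < 1 ∧
      P = (X.comp s, act g (X.pt s ξ)) ∧ c = X.comp (X.glue s) ∧ z = X.pt (X.glue s) ξ := by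
  cases h with
  | pure c z hp => exact Or.inl ⟨rfl, hp⟩
  | cross s g ξ hg h0 h1 => exact Or.inr ⟨s, g, ξ, hg, h0, h1, rfl, rfl, rfl⟩

theorem not_pure (X : Data C S) (hX : X.Surface) (s : S) (ξ : ℝ) (h0 : 0 < ξ) (h1 : ξ < 1) :
    ¬ X.Pure (X.comp s) (X.pt s ξ) := by
  rintro ⟨h, -⟩
  exact h ⟨s, rfl, _, deck_one X hX _, ξ, ⟨h0.le, h1.le⟩, (act_one _).symm⟩

theorem pure_valid (X : Data C S) (c : C) (z : ℝ × ℝ) (h : X.Pure c z) : X.Valid c z := by
  refine ⟨?_, h.2⟩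
  rintro ⟨s, hs, g, hg, h1 | h1⟩
  · exact h.1 ⟨s, hs, g, hg, 0, ⟨le_rfl, zero_le_one⟩, h1⟩
  · exact h.1 ⟨s, hs, g, hg, 1, ⟨zero_le_one, le_rfl⟩, h1⟩

/-- the case of a strict inequality -/
theorem down (hE : T_EQV) (X : Data C S) (hX : X.Surface) (t : ℝ) (P Q : C × ℝ × ℝ) (c : C)
    (z z' : ℝ × ℝ) (r r' h h' : ℝ) (g g' : ℝ × ℝ × ℝ) (st : X.Start P c z r)
    (st' : X.Start Q c z' r') (hg : g ∈ X.deck c) (hg' : g' ∈ X.deck c) (h0' : 0 < h')
    (cl : X.Clear t c z h) (e : act g (fwd t z h) = act g' (fwd t z' h'))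
    (hlt : g'.1 * h' < g.1 * h) : ∃ k, X.Step t P Q k := by
  have gp := deck_pos X hX c g hg
  have gp' := deck_pos X hX c g' hg'
  set k : ℝ := (g.1 * h - g'.1 * h') / g.1 with hk
  have hk0 : 0 < k := div_pos (by linarith) gp
  have hkh : k < h := by
    rw [hk, div_lt_iff₀ gp]
    have := mul_pos gp' h0'
    linarith
  have e1 : act g (fwd t z k) = act g' z' := by
    rw [act_fwd, act_fwd] at e
    rw [act_fwd, hk, mul_div_cancel₀ _ gp.ne']
    have e2 : fwd t (fwd t (act g z) (g.1 * h)) (-(g'.1 * h')) =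
        fwd t (fwd t (act g' z') (g'.1 * h')) (-(g'.1 * h')) := by rw [e]
    rw [fwd_add, fwd_add, add_neg_cancel, fwd_zero] at e2
    rw [← e2]
    congr 1
  have p1 : X.Pure c (fwd t z k) := cl k hk0 hkh
  have p2 : X.Pure c z' := by
    rw [← (hE C S X hX c g' hg' z').2.2.1, ← e1, (hE C S X hX c g hg _).2.2.1]
    exact p1
  have hQ : Q = (c, z') := by
    rcases start_view X Q c z' r' st' with ⟨h1, -⟩ | ⟨s, g₁, ξ, -, a0, a1, -, rfl, rfl⟩
    · exact h1
    · exact absurd p2 (not_pure X hX _ ξ a0 a1)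
  refine ⟨_, c, z, r, k, gmul (ginv g') g, st, hk0, ?_, pure_valid X _ _ p1, ?_, ?_, rfl⟩
  · exact fun l hl0 hl => cl l hl0 (hl.trans hkh)
  · exact deck_mul X hX c _ _ (deck_inv X hX c g' hg') hg
  · rw [hQ, act_gmul, e1, act_ginv g' gp'.ne']

end H75SCB

open H75SCB in
/-- SCB -/
theorem pf_SCB (hU : T_SLU) (hE : T_EQV) : T_SCB := by
  intro C S X hX t M P Q m n hP hQ
  obtain ⟨c, z, r, h, g, st, h0, cl, va, hg, rfl, -⟩ := hP
  obtain ⟨c', z', r', h', g', st', h0', cl', va', hg', e, -⟩ := hQ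
  have ec : c = c' := congrArg Prod.fst e
  subst ec
  have e' : act g (fwd t z h) = act g' (fwd t z' h') := congrArg Prod.snd e
  have gp := deck_pos X hX c g hg
  have gp' := deck_pos X hX c g' hg'
  rcases lt_trichotomy (g.1 * h) (g'.1 * h') with hlt | heq | hlt
  · exact Or.inr (Or.inr (down hE X hX t Q P c z' z r' r h' h g' g st' st hg' hg h0 cl' e'.symm
      hlt))
  · have e1 : act g z = act g' z' := by
      rw [act_fwd, act_fwd, heq] at e'
      have e2 : fwd t (fwd t (act g z) (g'.1 * h')) (-(g'.1 * h')) =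
          fwd t (fwd t (act g' z') (g'.1 * h')) (-(g'.1 * h')) := by rw [e']
      rwa [fwd_add, fwd_add, add_neg_cancel, fwd_zero, fwd_zero] at e2
    left
    rcases start_view X P c z r st with ⟨rfl, p⟩ | ⟨s, g₁, ξ, hg₁, a0, a1, hP, hc, hz⟩
    · rcases start_view X Q c z' r' st' with ⟨rfl, p'⟩ | ⟨s', g₁', ξ', -, b0, b1, -, hc', hz'⟩
      · refine ⟨rfl, gmul (ginv g') g, deck_mul X hX c _ _ (deck_inv X hX c g' hg') hg, ?_⟩
        show z' = act (gmul (ginv g') g) z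
        rw [act_gmul, e1, act_ginv g' gp'.ne']
      · exfalso
        rw [← (hE C S X hX c g hg z).2.2.1, e1, (hE C S X hX c g' hg' z').2.2.1] at p
        subst hc'
        subst hz'
        exact not_pure X hX _ ξ' b0 b1 p
    · rcases start_view X Q c z' r' st' with ⟨rfl, p'⟩ | ⟨s', g₁', ξ', hg₁', b0, b1, hQ, hc', hz'⟩
      · exfalso
        rw [← (hE C S X hX c g' hg' z').2.2.1, ← e1, (hE C S X hX c g hg z).2.2.1] at p'
        subst hc
        subst hz
        exact not_pure X hX _ ξ a0 a1 p'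
      · rw [hz, hz'] at e1
        have hcc : X.comp (X.glue s) = X.comp (X.glue s') := hc.symm.trans hc'
        obtain ⟨u1, -, u3⟩ := hU C S X hX (X.glue s) (X.glue s') hcc g (hc ▸ hg) g' (hc ▸ hg')
          ξ ⟨a0.le, a1.le⟩ ξ' ⟨b0.le, b1.le⟩ e1
        have us : s = s' := X.glue.injective u1
        subst us
        subst u3
        have q := deck_pos X hX _ g₁ hg₁
        rw [hP, hQ]
        refine ⟨rfl, gmul g₁' (ginv g₁), deck_mul X hX _ _ _ hg₁' (deck_inv X hX _ g₁ hg₁), ?_⟩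
        show act g₁' (X.pt s ξ) = act (gmul g₁' (ginv g₁)) (act g₁ (X.pt s ξ))
        rw [act_gmul, act_ginv g₁ q.ne']
  · exact Or.inr (Or.inl (down hE X hX t P Q c z z' r r' h h' g g' st st' hg hg' h0' cl e' hlt))

end DS
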